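import Pool.Agent.Helper72.LS.FormDef

/-!
MP_5f3c9b_co, piece LS-P17: the graphs of a segment.
-/

namespace Pool.Agent.Helper65.LS

open Finset
open scoped Classical
open Pool.Agent.Helper72.LS

/-- joining with `k + 1` independent vertices -/
theorem phi_join' (k j h n m t : ℤ) :
    phi k j (h + 1) (n + (k + 1)) (m + (k + 1) * n) (t + (k + 1) * m) = phi k j h n m t := by
  have a1 := six_c3 n
  have a2 := two_c2 n
  have a3 := six_c3 (k + 1)
  have a4 := two_c2 (k + 1)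
  have b1 := six_c3 (n + (k + 1))
  have b2 := two_c2 (n + (k + 1))
  have key : 6 * phi k j (h + 1) (n + (k + 1)) (m + (k + 1) * n) (t + (k + 1) * m)
      = 6 * phi k j h n m t := by
    unfold phi al
    linear_combination b1 - 3 * (n + (k + 1) - k - j - 1) * b2 - a3 + 3 * j * a4
      - a1 + 3 * (n - k - j - 1) * a2
  linarith

theorem pos_join' (k h n m : ℤ) :
    pos k (h + 1) (n + (k + 1)) (m + (k + 1) * n) = pos k h n m := by
  have a2 := two_c2 n
  have a4 := two_c2 (k + 1)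
  have b2 := two_c2 (n + (k + 1))
  have key : 2 * pos k (h + 1) (n + (k + 1)) (m + (k + 1) * n) = 2 * pos k h n m := by
    unfold pos
    linear_combination - b2 - a4 + a2
  linarith

theorem phi_base (k δ m : ℤ) : phi k δ 1 (k + δ + 1) m 0 = 0 := by
  have a1 := six_c3 (k + δ + 1)
  have a2 := two_c2 (k + δ + 1)
  have a3 := six_c3 (k + 1)
  have a4 := two_c2 (k + 1)
  have a5 := two_c2 (δ + 1)
  have a6 := six_c3 (δ + 1)
  have key : 6 * phi k δ 1 (k + δ + 1) m 0 = 0 := by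
    unfold phi al
    linear_combination a1 - a3 + 3 * δ * a4 + 3 * k * a5 - a6
  linarith

theorem pos_base (k δ m : ℤ) : pos k 1 (k + δ + 1) m = Dj k δ + m - (k + 1) * δ := by
  have a2 := two_c2 (k + δ + 1)
  have a4 := two_c2 (k + 1)
  have a5 := two_c2 δ
  have key : 2 * pos k 1 (k + δ + 1) m = 2 * (Dj k δ + m - (k + 1) * δ) := by
    unfold pos Dj
    linear_combination - a2 - a4 + a5
  linarith

/-- the segment graphs -/
theorem form_segment
    (hbip : ∀ (a b m : ℕ), 1 ≤ a → m ≤ a * b →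
      ∃ (W : Type) (_ : Fintype W) (Γ : SimpleGraph W), Fintype.card W = a + b ∧ em Γ = m ∧
        tm Γ = 0 ∧ PartiteForm Γ)
    (hjoin : ∀ {V : Type} [Fintype V] (G : SimpleGraph V), PartiteForm G → ∀ (s : ℕ), 1 ≤ s →
      ∃ (W : Type) (_ : Fintype W) (Γ : SimpleGraph W), Fintype.card W = Fintype.card V + s ∧
        em Γ = em G + s * Fintype.card V ∧ tm Γ = tm G + s * em G ∧ PartiteForm Γ)
    (k δ h e n : ℕ) (m : ℤ) (hk : 1 ≤ k) (hδ : δ < k) (he : 1 ≤ e) (heh : e ≤ h)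
    (hn : n = h * k + e + δ) (h1 : Dj k δ ≤ pos k h n m) (h2 : pos k h n m ≤ Dj k (δ + 1)) :
    ∃ (W : Type) (_ : Fintype W) (Γ : SimpleGraph W), Fintype.card W = n ∧ em Γ = m ∧
      phG Γ k δ h = 0 ∧ PartiteForm Γ := by
  set p : ℤ := pos k h n m with hp
  -- base
  have hbase : ∃ (W : Type) (_ : Fintype W) (Γ : SimpleGraph W),
      Fintype.card W = k + δ + 1 ∧ psG Γ k 1 = p ∧ phG Γ k δ 1 = 0 ∧ PartiteForm Γ := by
    have hm0 : (0 : ℤ) ≤ p - Dj k δ + (k + 1) * δ := by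
      have : (0 : ℤ) ≤ (k + 1) * δ := by positivity
      linarith
    have hm1 : p - Dj k δ + (k + 1) * δ ≤ k * (δ + 1) := by
      have hs := Dj_succ (k : ℤ) (δ : ℤ)
      nlinarith
    obtain ⟨W, _, Γ, hc, hem, htm, hΓ⟩ := hbip k (δ + 1) (p - Dj k δ + (k + 1) * δ).toNat hk (by
      have : (((p - Dj k δ + (k + 1) * δ).toNat : ℕ) : ℤ) ≤ ((k * (δ + 1) : ℕ) : ℤ) := by
        rw [Int.toNat_of_nonneg hm0]
        push_cast
        exact hm1
      exact_mod_cast this)
    have hc' : (Fintype.card W : ℤ) = k + δ + 1 := by rw [hc]; push_cast; ring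
    rw [Int.toNat_of_nonneg hm0] at hem
    refine ⟨W, inferInstance, Γ, by rw [hc]; ring, ?_, ?_, hΓ⟩
    · unfold psG
      rw [hc', hem, pos_base]; ring
    · unfold phG
      rw [hc', htm, phi_base]
  -- joins with k vertices
  have hstep1 : ∀ j : ℕ, ∃ (W : Type) (_ : Fintype W) (Γ : SimpleGraph W),
      Fintype.card W = k + δ + 1 + j * k ∧ psG Γ k (1 + j) = p ∧ phG Γ k δ (1 + j) = 0 ∧
        PartiteForm Γ := by
    intro j
    induction j with
    | zero =>
      obtain ⟨W, i, Γ, hc, hps, hph, hΓ⟩ := hbase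
      exact ⟨W, i, Γ, by rw [hc]; ring, by simpa using hps, by simpa using hph, hΓ⟩
    | succ j ih =>
      obtain ⟨W, _, Γ, hc, hps, hph, hΓ⟩ := ih
      obtain ⟨W', _, Γ', hc', hem', htm', hΓ'⟩ := hjoin Γ hΓ k hk
      have hc'' : (Fintype.card W' : ℤ) = (Fintype.card W : ℤ) + k := by exact_mod_cast hc'
      refine ⟨W', inferInstance, Γ', by rw [hc', hc]; ring, ?_, ?_, hΓ'⟩
      · unfold psG at hps ⊢
        rw [hc'', hem', show ((1 : ℤ) + ((j + 1 : ℕ) : ℤ)) = (1 + j) + 1 by push_cast; ring,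
          pos_join]
        exact hps
      · unfold phG at hph ⊢
        rw [hc'', hem', htm', show ((1 : ℤ) + ((j + 1 : ℕ) : ℤ)) = (1 + j) + 1 by push_cast; ring,
          phi_join]
        exact hph
  -- joins with k + 1 vertices
  have hstep2 : ∀ i : ℕ, ∃ (W : Type) (_ : Fintype W) (Γ : SimpleGraph W),
      Fintype.card W = k + δ + 1 + (h - e) * k + i * (k + 1) ∧
        psG Γ k (1 + ((h - e : ℕ) : ℤ) + i) = p ∧ phG Γ k δ (1 + ((h - e : ℕ) : ℤ) + i) = 0 ∧
        PartiteForm Γ := by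
    intro i
    induction i with
    | zero =>
      obtain ⟨W, i, Γ, hc, hps, hph, hΓ⟩ := hstep1 (h - e)
      exact ⟨W, i, Γ, by rw [hc]; ring, by simpa using hps, by simpa using hph, hΓ⟩
    | succ i ih =>
      obtain ⟨W, _, Γ, hc, hps, hph, hΓ⟩ := ih
      obtain ⟨W', _, Γ', hc', hem', htm', hΓ'⟩ := hjoin Γ hΓ (k + 1) (by omega)
      have hc'' : (Fintype.card W' : ℤ) = (Fintype.card W : ℤ) + (k + 1) := by
        rw [hc']; push_cast; ring
      have hem'' : em Γ' = em Γ + ((k : ℤ) + 1) * Fintype.card W := by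
        rw [hem']; push_cast; ring
      have htm'' : tm Γ' = tm Γ + ((k : ℤ) + 1) * em Γ := by
        rw [htm']; push_cast; ring
      refine ⟨W', inferInstance, Γ', by rw [hc', hc]; ring, ?_, ?_, hΓ'⟩
      · unfold psG at hps ⊢
        rw [hc'', hem'', show ((1 : ℤ) + ((h - e : ℕ) : ℤ) + ((i + 1 : ℕ) : ℤ))
          = (1 + ((h - e : ℕ) : ℤ) + i) + 1 by push_cast; ring, pos_join']
        exact hps
      · unfold phG at hph ⊢
        rw [hc'', hem'', htm'', show ((1 : ℤ) + ((h - e : ℕ) : ℤ) + ((i + 1 : ℕ) : ℤ))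
          = (1 + ((h - e : ℕ) : ℤ) + i) + 1 by push_cast; ring, phi_join']
        exact hph
  obtain ⟨W, _, Γ, hc, hps, hph, hΓ⟩ := hstep2 (e - 1)
  have hcard : Fintype.card W = n := by
    rw [hc, hn]
    obtain ⟨d, rfl⟩ : ∃ d, h = e + d := ⟨h - e, by omega⟩
    obtain ⟨f, rfl⟩ : ∃ f, e = f + 1 := ⟨e - 1, by omega⟩
    have e1 : f + 1 + d - (f + 1) = d := by omega
    rw [e1]
    simp only [Nat.add_sub_cancel]
    ring
  have hh : (1 : ℤ) + ((h - e : ℕ) : ℤ) + ((e - 1 : ℕ) : ℤ) = h := by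
    have : 1 + (h - e) + (e - 1) = h := by omega
    exact_mod_cast this
  rw [hh] at hps hph
  refine ⟨W, inferInstance, Γ, hcard, ?_, hph, hΓ⟩
  unfold psG at hps
  rw [hp, hcard] at hps
  unfold pos at hps
  linarith

end Pool.Agent.Helper65.LS
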